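import Pool.Agent.Helper72.MK.GoalsT

/-!
# MK, packet HALF
-/

open MeasureTheory Set

namespace Pool.Agent.Helper90.MK

open Pool.Agent.Helper72.MK

theorem half : HALFStmt := by
  intro n A hA hsym i
  have hm : MeasurableSet {x : Fin n → ℝ | 0 < x i} :=
    measurableSet_lt measurable_const (measurable_pi_apply i)
  have h0 : volume {x : Fin n → ℝ | x i = 0} = 0 := by
    rw [volume_pi]
    exact Measure.pi_hyperplane _ i 0
  have hneg : volume (A ∩ {x : Fin n → ℝ | x i < 0}) = volume (A ∩ {x | 0 < x i}) := by
    have e : A ∩ {x : Fin n → ℝ | x i < 0} = -(A ∩ {x : Fin n → ℝ | 0 < x i}) := by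
      ext x
      rw [Set.mem_neg]
      constructor
      · rintro ⟨h1, h2⟩
        refine ⟨hsym x h1, ?_⟩
        have h2' : x i < 0 := h2
        show 0 < -x i
        linarith
      · rintro ⟨h1, h2⟩
        refine ⟨?_, ?_⟩
        · have := hsym _ h1
          rwa [neg_neg] at this
        · have h2' : 0 < -x i := h2
          show x i < 0
          linarith
    rw [e, Measure.measure_neg]
  have hle : volume (A \ {x : Fin n → ℝ | 0 < x i}) = volume (A ∩ {x : Fin n → ℝ | x i < 0}) := by
    apply le_antisymm
    · calc volume (A \ {x : Fin n → ℝ | 0 < x i})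
          ≤ volume ((A ∩ {x : Fin n → ℝ | x i < 0}) ∪ {x : Fin n → ℝ | x i = 0}) := by
            apply measure_mono
            rintro x ⟨h1, h2⟩
            have h2' : ¬ 0 < x i := h2
            rcases lt_trichotomy (x i) 0 with h | h | h
            · exact Or.inl ⟨h1, h⟩
            · exact Or.inr h
            · exact absurd h h2'
        _ ≤ volume (A ∩ {x : Fin n → ℝ | x i < 0}) + volume {x : Fin n → ℝ | x i = 0} :=
            measure_union_le _ _
        _ = _ := by rw [h0, add_zero]
    · apply measure_mono
      rintro x ⟨h1, h2⟩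
      have h2' : x i < 0 := h2
      exact ⟨h1, fun h => absurd (show 0 < x i from h) (not_lt.2 h2'.le)⟩
  rw [← measure_inter_add_sdiff A hm, hle, hneg, mul_two]

end Pool.Agent.Helper90.MK
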